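import Pool.Agent.EGF.StmtsP

/-!
# Row MAI2 of the squad EGF: the main theorem for one colouring
-/

set_option autoImplicit false

open Finset

namespace Pool.Agent.EGF.H58

open Pool.Agent.EGF

theorem mai2 (sta2 : Sta2Stmt) (rat : RatStmt) (cls2 : Cls2Stmt) (par2 : Par2Stmt) : Mai2Stmt := by
  intro θ Q hθ0 hθ1 hQθ k hk hlk V _ c U hsym hno h32 hU
  -- elementary facts
  have hQ : (1024 : ℝ) ≤ Q := by
    refine le_trans ?_ hQθ
    rw [le_div_iff₀ hθ0]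
    nlinarith
  have hQ0 : (0 : ℝ) < Q := by linarith
  have hQn : 1024 ≤ Q := by exact_mod_cast hQ
  have hθQ : 1024 ≤ θ * Q := by
    rw [div_le_iff₀ hθ0] at hQθ
    linarith
  have hpow : ∀ {a b : ℕ}, a ≤ b → (Q : ℝ) ^ a ≤ (Q : ℝ) ^ b := fun {a b} h =>
    pow_le_pow_right₀ (by linarith) h
  have hk1 : (1 : ℝ) ≤ k := le_trans (one_le_pow₀ (by linarith)) hk
  have hk1' : 1 ≤ k := by exact_mod_cast hk1
  have hlogU : 1024 * (Q : ℝ) ^ 99999 ≤ Real.log U.card := by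
    calc 1024 * (Q : ℝ) ^ 99999 ≤ (θ * Q) * (Q : ℝ) ^ 99999 :=
          mul_le_mul_of_nonneg_right hθQ (by positivity)
      _ = θ * (Q : ℝ) ^ 100000 := by rw [mul_assoc, ← pow_succ']
      _ ≤ θ * k := mul_le_mul_of_nonneg_left hk hθ0.le
      _ ≤ _ := hU
  have hQ2 : (Q : ℝ) ^ 2 ≤ (Q : ℝ) ^ 99999 := hpow (by norm_num)
  have hlogU0 : 0 < Real.log U.card := lt_of_lt_of_le (by positivity) hlogU
  have hUne : U.Nonempty := by
    rw [Finset.nonempty_iff_ne_empty]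
    rintro rfl
    simp at hlogU0
  have hpal : ∀ S : Finset V, ((pal c S).card : ℝ) ≤ k := by
    intro S
    have : (pal c S).card ≤ k := by
      have := Finset.card_le_univ (pal c S)
      rwa [Fintype.card_fin] at this
    exact_mod_cast this
  obtain ⟨s, hs⟩ : ∃ s : ℕ, s = 32 * Q ^ 2 + 1 := ⟨_, rfl⟩
  obtain ⟨s1, hs1⟩ : ∃ s1 : ℕ, s1 = Q ^ 1546 := ⟨_, rfl⟩
  have hsR : (s : ℝ) = 32 * (Q : ℝ) ^ 2 + 1 := by rw [hs]; push_cast; ring
  have hs12 : 2 ≤ s1 := by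
    rw [hs1]
    exact le_trans (show 2 ≤ Q by linarith) (Nat.le_self_pow (by norm_num) Q)
  have hlogs : Real.log s ≤ Q := by
    have hs0 : (0 : ℝ) < s := by rw [hsR]; positivity
    rw [Real.log_le_iff_le_exp hs0]
    have h1 := Real.pow_div_factorial_le_exp (Q : ℝ) hQ0.le 4
    have h2 : ((Nat.factorial 4 : ℕ) : ℝ) = 24 := by norm_num [Nat.factorial]
    rw [h2] at h1
    refine le_trans ?_ h1
    rw [hsR, le_div_iff₀ (by norm_num)]
    have h3 : (1024 : ℝ) ^ 2 ≤ (Q : ℝ) ^ 2 := pow_le_pow_left₀ (by norm_num) hQ 2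
    nlinarith
  obtain ⟨W, hWU, hWne, hF, hF1, hWpal, hWlog⟩ := sta2 V k c θ Q s s1 U hsym hno hθ0 hθ1 hQθ hs
    (by omega) hlk hUne (le_trans (mul_le_mul_of_nonneg_left (hpal U) hθ0.le) hU) (by
      refine le_trans ?_ hlogU
      nlinarith)
  have hWlog0 : 0 < Real.log W.card := by
    by_contra h
    push Not at h
    linarith
  have hW2 : 2 ≤ W.card := by
    by_contra h
    have : W.card = 0 ∨ W.card = 1 := by omega
    rcases this with h1 | h1 <;> rw [h1] at hWlog0 <;> simp at hWlog0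
  obtain ⟨U1, ϑ, hU1W, hrec, hϑ, hU1log, -, hcube⟩ := rat V k c W (θ / 2) (by linarith) hW2 hWpal
  have hϑ0 : 0 < ϑ := by linarith
  have hU1nn : 0 ≤ Real.log (U1.card : ℝ) := Real.log_natCast_nonneg _
  -- the size of `U1`
  have hsize : (Q : ℝ) ^ 64949 ≤ Real.log U1.card := by
    have h1 : ((Q : ℝ) ^ 64949) ^ 3 ≤ (Real.log U1.card) ^ 3 := by
      have h2 : θ * k / 1024 ≤ Real.log W.card := by
        rw [div_le_iff₀ (by norm_num)]
        linarith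
      have h3 : (θ * k / 1024) ^ 2 ≤ (Real.log W.card) ^ 2 :=
        pow_le_pow_left₀ (by positivity) h2 2
      have h4 : θ / 2 * (θ * k / 1024) ^ 2 ≤ 8 * (Real.log U1.card) ^ 3 :=
        le_trans (mul_le_mul_of_nonneg_left h3 (by linarith)) hcube
      have h5 : (1024 : ℝ) ^ 3 * (Q : ℝ) ^ 199997 ≤ θ ^ 3 * (k : ℝ) ^ 2 := by
        have e1 : (1024 : ℝ) ^ 3 ≤ (θ * Q) ^ 3 := pow_le_pow_left₀ (by norm_num) hθQ 3
        have e2 : ((Q : ℝ) ^ 100000) ^ 2 ≤ (k : ℝ) ^ 2 := pow_le_pow_left₀ (by positivity) hk 2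
        calc (1024 : ℝ) ^ 3 * (Q : ℝ) ^ 199997 ≤ (θ * Q) ^ 3 * (Q : ℝ) ^ 199997 :=
              mul_le_mul_of_nonneg_right e1 (by positivity)
          _ = θ ^ 3 * ((Q : ℝ) ^ 3 * (Q : ℝ) ^ 199997) := by rw [mul_pow]; ring
          _ = θ ^ 3 * ((Q : ℝ) ^ 100000) ^ 2 := by
              rw [← pow_add, ← pow_mul]
          _ ≤ θ ^ 3 * (k : ℝ) ^ 2 := mul_le_mul_of_nonneg_left e2 (by positivity)
      have h6 : ((Q : ℝ) ^ 64949) ^ 3 ≤ (Q : ℝ) ^ 199997 := by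
        rw [← pow_mul]
        exact hpow (by norm_num)
      have h7 : θ / 2 * (θ * k / 1024) ^ 2 = θ ^ 3 * (k : ℝ) ^ 2 / (2 * 1024 ^ 2) := by
        ring
      have h8 : 64 * 8 * (Q : ℝ) ^ 199997 ≤ θ / 2 * (θ * k / 1024) ^ 2 := by
        rw [h7, le_div_iff₀ (by norm_num)]
        calc 64 * 8 * (Q : ℝ) ^ 199997 * (2 * 1024 ^ 2) = (1024 : ℝ) ^ 3 * (Q : ℝ) ^ 199997 := by
              norm_num
              ring
          _ ≤ _ := h5
      have h9 : (0 : ℝ) ≤ (Q : ℝ) ^ 199997 := by positivity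
      linarith
    exact le_of_pow_le_pow_left₀ (by norm_num) hU1nn h1
  obtain ⟨j, m, κ, ρ, p1, p2, p3, p4, p5, p6, p7, p8, p9, p10, p11⟩ := par2 Q s s1 hQn hs hs1
  have hp := p11 k hk1' hlk
  have h256 : 256 / (Q : ℝ) ≤ ϑ := by
    rw [div_le_iff₀ hQ0]
    nlinarith
  refine cls2 V k c U1 s s1 j m ((Q : ℝ) ^ 2) ((Q : ℝ) ^ 2) ϑ κ ρ hsym hrec hϑ0 hU1log
    (one_le_pow₀ (by linarith)) (by rw [hsR]) (fun S hS => hF S (hS.trans hU1W)) (by positivity)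
    hs12 (fun S hS => hF1 S (hS.trans hU1W)) p1 p2 p3 p4 (p5.trans h256) p6 p7 p8 p9 p10 ?_
    (fun S hS => h32 S (hS.trans (hU1W.trans hWU)))
  rw [le_div_iff₀ (by norm_num)]
  linarith

end Pool.Agent.EGF.H58
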